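import Mathlib

set_option autoImplicit false

/-!
# Project AG (helper50): the kernel `min s u` is positive semidefinite on `[0, ∞)`
-/

namespace Pool.Agent.L7h8.AG

open MeasureTheory Filter Topology

theorem vol_cap (m T : ℝ) (hm : 0 ≤ m) (hT : 0 ≤ T) :
    (volume : Measure ℝ).real (Set.Ioc 0 T ∩ Set.Iio m) = min m T := by
  rcases le_or_gt m T with h | h
  · have : Set.Ioc 0 T ∩ Set.Iio m = Set.Ioo 0 m := by
      ext t
      simp only [Set.mem_inter_iff, Set.mem_Ioc, Set.mem_Iio, Set.mem_Ioo]
      constructor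
      · rintro ⟨⟨h1, _⟩, h3⟩; exact ⟨h1, h3⟩
      · rintro ⟨h1, h2⟩; exact ⟨⟨h1, by linarith⟩, h2⟩
    rw [this, min_eq_left h, measureReal_def, Real.volume_Ioo, ENNReal.toReal_ofReal (by linarith)]
    ring
  · have : Set.Ioc 0 T ∩ Set.Iio m = Set.Ioc 0 T := by
      ext t
      simp only [Set.mem_inter_iff, Set.mem_Ioc, Set.mem_Iio]
      constructor
      · rintro ⟨h1, _⟩; exact h1
      · rintro ⟨h1, h2⟩; exact ⟨⟨h1, h2⟩, by linarith⟩
    rw [this, min_eq_right h.le, measureReal_def, Real.volume_Ioc, ENNReal.toReal_ofReal (by linarith)]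
    ring

theorem frm (pi : Measure ℝ) [IsProbabilityMeasure pi] (h0 : ∀ᵐ u ∂pi, 0 ≤ u) (f : ℝ → ℝ)
    (hf : Measurable f)
    (hi : Integrable (Function.uncurry fun s u : ℝ => f s * (min s u * f u)) (pi.prod pi))
    (hf1 : Integrable f pi) : 0 ≤ ∫ s, ∫ u, f s * (min s u * f u) ∂pi ∂pi := by
  have hz1 : ∀ᵐ z ∂(pi.prod pi), 0 ≤ z.1 := Measure.quasiMeasurePreserving_fst.ae h0
  have hz2 : ∀ᵐ z ∂(pi.prod pi), 0 ≤ z.2 := Measure.quasiMeasurePreserving_snd.ae h0
  have key : ∀ T : ℝ, 0 ≤ T →
      0 ≤ ∫ z : ℝ × ℝ, f z.1 * (min (min z.1 z.2) T * f z.2) ∂(pi.prod pi) := by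
    intro T hT
    have hm1 : Measurable fun w : (ℝ × ℝ) × ℝ => if w.2 < w.1.1 then f w.1.1 else 0 :=
      Measurable.ite (measurableSet_lt measurable_snd (measurable_fst.comp measurable_fst))
        (hf.comp (measurable_fst.comp measurable_fst)) measurable_const
    have hm2 : Measurable fun w : (ℝ × ℝ) × ℝ => if w.2 < w.1.2 then f w.1.2 else 0 :=
      Measurable.ite (measurableSet_lt measurable_snd (measurable_snd.comp measurable_fst))
        (hf.comp (measurable_snd.comp measurable_fst)) measurable_const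
    have hint : Integrable (Function.uncurry fun (z : ℝ × ℝ) (t : ℝ) =>
        (if t < z.1 then f z.1 else 0) * (if t < z.2 then f z.2 else 0))
        ((pi.prod pi).prod (volume.restrict (Set.Ioc 0 T))) := by
      have h1 : Integrable (fun z : ℝ × ℝ => f z.1 * f z.2) (pi.prod pi) := hf1.mul_prod hf1
      have h2 : Integrable (fun w : (ℝ × ℝ) × ℝ => f w.1.1 * f w.1.2)
          ((pi.prod pi).prod (volume.restrict (Set.Ioc 0 T))) :=
        h1.comp_fst (volume.restrict (Set.Ioc 0 T))
      refine h2.mono (hm1.mul hm2).aestronglyMeasurable (Eventually.of_forall fun w => ?_)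
      simp only [Function.uncurry, norm_mul]
      refine mul_le_mul ?_ ?_ (norm_nonneg _) (norm_nonneg _)
      · split_ifs
        · exact le_refl _
        · simp
      · split_ifs
        · exact le_refl _
        · simp
    have e1 : ∀ᵐ z ∂(pi.prod pi), f z.1 * (min (min z.1 z.2) T * f z.2) =
        ∫ t in Set.Ioc 0 T, (if t < z.1 then f z.1 else 0) * (if t < z.2 then f z.2 else 0) := by
      filter_upwards [hz1, hz2] with z h1 h2
      have e : ∀ t : ℝ, (if t < z.1 then f z.1 else 0) * (if t < z.2 then f z.2 else 0) =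
          (Set.Iio (min z.1 z.2)).indicator (fun _ => f z.1 * f z.2) t := by
        intro t
        by_cases ha : t < z.1
        · by_cases hb : t < z.2
          · simp [ha, hb]
          · simp [ha, hb]
        · simp [ha]
      simp_rw [e]
      rw [setIntegral_indicator measurableSet_Iio, setIntegral_const,
        vol_cap _ _ (le_min h1 h2) hT, smul_eq_mul]
      ring
    rw [integral_congr_ae e1, integral_integral_swap hint]
    apply integral_nonneg
    intro t
    have h3 := integral_prod_mul (μ := pi) (ν := pi) (fun s : ℝ => if t < s then f s else 0)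
      (fun s : ℝ => if t < s then f s else 0)
    change 0 ≤ ∫ z : ℝ × ℝ, (if t < z.1 then f z.1 else 0) * (if t < z.2 then f z.2 else 0) ∂(pi.prod pi)
    rw [h3]
    exact mul_self_nonneg _
  have hlim : Tendsto (fun n : ℕ => ∫ z : ℝ × ℝ, f z.1 * (min (min z.1 z.2) (n : ℝ) * f z.2) ∂(pi.prod pi))
      atTop (𝓝 (∫ z : ℝ × ℝ, f z.1 * (min z.1 z.2 * f z.2) ∂(pi.prod pi))) := by
    refine tendsto_integral_of_dominated_convergence
      (fun z : ℝ × ℝ => ‖f z.1 * (min z.1 z.2 * f z.2)‖) ?_ hi.norm ?_ ?_
    · intro n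
      exact ((hf.comp measurable_fst).mul (((measurable_fst.min measurable_snd).min
        measurable_const).mul (hf.comp measurable_snd))).aestronglyMeasurable
    · intro n
      filter_upwards [hz1, hz2] with z h1 h2
      simp only [norm_mul, Real.norm_eq_abs]
      have hm : 0 ≤ min z.1 z.2 := le_min h1 h2
      have hn : (0 : ℝ) ≤ n := Nat.cast_nonneg n
      rw [abs_of_nonneg (le_min hm hn), abs_of_nonneg hm]
      exact mul_le_mul_of_nonneg_left (mul_le_mul_of_nonneg_right (min_le_left _ _) (abs_nonneg _))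
        (abs_nonneg _)
    · refine Eventually.of_forall fun z => ?_
      refine tendsto_const_nhds.congr' ?_
      obtain ⟨N, hN⟩ := exists_nat_ge (min z.1 z.2)
      filter_upwards [eventually_ge_atTop N] with n hn
      rw [min_eq_left (hN.trans (by exact_mod_cast hn))]
  rw [integral_integral hi]
  exact ge_of_tendsto' hlim fun n => key n (Nat.cast_nonneg n)

end Pool.Agent.L7h8.AG
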